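import Pool.Agent.Helper45.PQ.StB

/-!
# Project PQ, module CSA: two perpendicular heavy points
-/

set_option autoImplicit false

open Module Classical
open scoped LinearAlgebra.Projectivization

namespace Pool.Agent.Helper12.PQ

open Pool.Agent.Helper45.PQ
open Pool.Agent.Helper53.PB (tt line)

universe u v

private theorem arith (q x y a b g j : ℤ) (hq : 3 ≤ q) (ha : 1 ≤ a) (hb : 1 ≤ b) (hg : 0 ≤ g)
    (hj : a + b + g = j) (hjq : j + 2 ≤ q) (hx : a * q ^ 3 ≤ x) (hy : b * q ^ 3 ≤ y)
    (hv : y * (x - 2 * g * q) ≤ q ^ 6 * (q - 1 - a)) : a * (1 + b) + 1 ≤ q := by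
  by_contra hcon
  push Not at hcon
  have hq3 : 0 < q ^ 3 := by positivity
  have h1 : 2 * g * q < q ^ 3 := by
    have h2 : g ≤ q - 4 := by linarith
    have h3 : 2 * g * q ≤ 2 * (q - 4) * q := by nlinarith
    have h4 : 2 * (q - 4) * q < q ^ 3 := by nlinarith [mul_pos (by linarith : 0 < q) (by linarith : 0 < q)]
    linarith
  have h2 : 0 < a * q ^ 3 - 2 * g * q := by nlinarith
  have h3 : b * q ^ 3 * (a * q ^ 3 - 2 * g * q) ≤ y * (x - 2 * g * q) := by
    have h4 : b * q ^ 3 * (a * q ^ 3 - 2 * g * q) ≤ y * (a * q ^ 3 - 2 * g * q) :=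
      mul_le_mul_of_nonneg_right hy h2.le
    have h5 : 0 ≤ y := le_trans (by positivity) hy
    have h6 : y * (a * q ^ 3 - 2 * g * q) ≤ y * (x - 2 * g * q) :=
      mul_le_mul_of_nonneg_left (by linarith) h5
    linarith
  have h4 : q ^ 4 * (q ^ 2 * (a * b + a + 1 - q)) ≤ q ^ 4 * (2 * g * b) := by
    have h5 : b * q ^ 3 * (a * q ^ 3 - 2 * g * q) = q ^ 4 * (a * b * q ^ 2 - 2 * g * b) := by ring
    have h6 : q ^ 6 * (q - 1 - a) = q ^ 4 * (q ^ 2 * (q - 1 - a)) := by ring
    have h7 : q ^ 4 * (q ^ 2 * (a * b + a + 1 - q)) =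
        q ^ 4 * (a * b * q ^ 2 - 2 * g * b) + q ^ 4 * (2 * g * b) - q ^ 4 * (q ^ 2 * (q - 1 - a)) := by
      ring
    linarith
  have h5 : q ^ 2 * (a * b + a + 1 - q) ≤ 2 * g * b :=
    le_of_mul_le_mul_left h4 (by positivity)
  have h6 : q ^ 2 ≤ q ^ 2 * (a * b + a + 1 - q) := by
    have h7 : 1 ≤ a * b + a + 1 - q := by nlinarith
    nlinarith [sq_nonneg q]
  have h7 : 4 * (g * b) ≤ (q - 3) ^ 2 := by
    have h8 : g + b ≤ q - 3 := by linarith
    have h9 : 4 * (g * b) ≤ (g + b) ^ 2 := by nlinarith [sq_nonneg (g - b)]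
    have h10 : (g + b) ^ 2 ≤ (q - 3) ^ 2 := pow_le_pow_left₀ (by linarith) h8 2
    linarith
  nlinarith

private theorem line_comm' {F : Type u} {V : Type v} [Field F] [AddCommGroup V] [Module F V]
    (P R : ℙ F V) : line P R = line R P := by
  unfold line
  rw [sup_comm]

/-- the number of points perpendicular to one heavy point and not to the other -/
private theorem half {F : Type u} [Field F] [Finite F] {V : Type v} [AddCommGroup V] [Module F V]
    [Finite V] [FiniteDimensional F V] {Q : QuadraticForm F V} {T H : Finset (ℙ F V)}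
    {m : ℙ F V → ℕ} {h j : ℕ} (c : Cfg Q T H m h j) {R S : ℙ F V} (hR : R ∈ H) (hS : S ∈ H)
    (hne : R ≠ S) (hRS : QuadraticMap.polar Q R.rep S.rep = 0) :
    m R * Nat.card F ^ 3 ≤ (T.filter (fun x => QuadraticMap.polar Q R.rep x.rep = 0 ∧
      QuadraticMap.polar Q S.rep x.rep ≠ 0)).card := by
  have h1 := c.lo R hR
  have h2 := c.lp R hR S hS hne hRS
  have h3 : nu Q T R.rep = (T.filter (fun x => QuadraticMap.polar Q R.rep x.rep = 0 ∧
      QuadraticMap.polar Q S.rep x.rep = 0)).card + (T.filter (fun x =>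
      QuadraticMap.polar Q R.rep x.rep = 0 ∧ QuadraticMap.polar Q S.rep x.rep ≠ 0)).card := by
    unfold nu
    rw [← Finset.filter_filter, ← Finset.filter_filter,
      Finset.card_filter_add_card_filter_not (s := T.filter (fun x => QuadraticMap.polar Q R.rep x.rep = 0))
        (fun x => QuadraticMap.polar Q S.rep x.rep = 0)]
  have h4 : (1 + m R) * (Nat.card F ^ 3 + 1) = m R * Nat.card F ^ 3 + Nat.card F ^ 3 + 1 + m R := by
    ring
  omega

theorem hCSA (h1 : StVAR.{u, v}) (h2 : StDEG.{u, v}) : StCSA.{u, v} := by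
  intro F _ _ V _ _ _ _ Q T H m h j c R hR S hS hne hRS
  have hSR : QuadraticMap.polar Q S.rep R.rep = 0 := by rw [QuadraticMap.polar_comm]; exact hRS
  have hQR := c.sH R hR
  have hQS := c.sH S hS
  have hRR : QuadraticMap.polar Q R.rep R.rep = 0 := by rw [polar_self_two, hQR, mul_zero]
  have hSS : QuadraticMap.polar Q S.rep S.rep = 0 := by rw [polar_self_two, hQS, mul_zero]
  have hRT := c.dis R hR
  obtain ⟨X, hX⟩ : ∃ X : Finset (ℙ F V), X = T.filter (fun x =>
    QuadraticMap.polar Q R.rep x.rep = 0 ∧ QuadraticMap.polar Q S.rep x.rep ≠ 0) := ⟨_, rfl⟩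
  obtain ⟨Y, hY⟩ : ∃ Y : Finset (ℙ F V), Y = T.filter (fun x =>
    QuadraticMap.polar Q S.rep x.rep = 0 ∧ QuadraticMap.polar Q R.rep x.rep ≠ 0) := ⟨_, rfl⟩
  have hXc : m R * Nat.card F ^ 3 ≤ X.card := by rw [hX]; exact half c hR hS hne hRS
  have hYc : m S * Nat.card F ^ 3 ≤ Y.card := by rw [hY]; exact half c hS hR hne.symm hSR
  have hXm : ∀ x, x ∈ X ↔ x ∈ T ∧ QuadraticMap.polar Q R.rep x.rep = 0 ∧
      QuadraticMap.polar Q S.rep x.rep ≠ 0 := by
    intro x; rw [hX, Finset.mem_filter]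
  have hYm : ∀ x, x ∈ Y ↔ x ∈ T ∧ QuadraticMap.polar Q S.rep x.rep = 0 ∧
      QuadraticMap.polar Q R.rep x.rep ≠ 0 := by
    intro x; rw [hY, Finset.mem_filter]
  have hSe : S ∈ H.erase R := Finset.mem_erase.2 ⟨hne.symm, hS⟩
  obtain ⟨g, hg⟩ : ∃ g, g = ∑ Z ∈ (H.erase R).erase S, m Z := ⟨_, rfl⟩
  have hsum : m R + (m S + g) = j := by
    rw [hg, Finset.add_sum_erase _ _ hSe, Finset.add_sum_erase _ _ hR]
    exact c.ms
  have hmR := c.mp R hR
  have hmS := c.mp S hS
  have hjq := c.hj
  have hvar := h1 F V Q R S X Y (m R) g c.qd hQR hQS hRS hne (by omega)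
    (fun x hx => ⟨c.sT x ((hXm x).1 hx).1, ((hXm x).1 hx).2.1, ((hXm x).1 hx).2.2⟩)
    (fun x hx => ⟨c.sT x ((hYm x).1 hx).1, ((hYm x).1 hx).2.1, ((hYm x).1 hx).2.2⟩)
    (by
      intro x hx
      obtain ⟨hxT, hx1, hx2⟩ := (hXm x).1 hx
      have hRx : R ≠ x := fun h => hRT (h ▸ hxT)
      have hln := c.ln x hxT R hRx hQR (by rw [QuadraticMap.polar_comm]; exact hx1)
      have hms : m R ≤ mass H m (line x R) := by
        unfold mass
        exact Finset.single_le_sum (f := m) (fun _ _ => Nat.zero_le _)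
          (Finset.mem_filter.2 ⟨hR, Pool.Agent.Helper53.PB.right_mem_line x R⟩)
      have hsub : T.filter (fun y => y.rep ∈ line x R) ⊆ X.filter (fun x' => x'.rep ∈ line R x) := by
        intro y hy
        obtain ⟨hyT, hyl⟩ := Finset.mem_filter.1 hy
        obtain ⟨a, b, hab⟩ := Pool.Agent.Helper53.PB.mem_line.1 hyl
        have ha : a ≠ 0 := by
          rintro rfl
          rw [zero_smul, zero_add] at hab
          have : y = R := Pool.Agent.Helper53.PB.eq_of_rep_mem_span
            (Submodule.mem_span_singleton.2 ⟨b, hab⟩)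
          exact hRT (this ▸ hyT)
        refine Finset.mem_filter.2 ⟨(hXm y).2 ⟨hyT, ?_, ?_⟩, by rw [line_comm' R x]; exact hyl⟩
        · rw [← hab, QuadraticMap.polar_add_right, QuadraticMap.polar_smul_right,
            QuadraticMap.polar_smul_right, hx1, hRR]
          simp
        · rw [← hab, QuadraticMap.polar_add_right, QuadraticMap.polar_smul_right,
            QuadraticMap.polar_smul_right, hSR, smul_zero, add_zero, smul_eq_mul]
          exact mul_ne_zero ha hx2
      have hcard := Finset.card_le_card hsub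
      have htt : tt T (line x R) = (T.filter (fun y => y.rep ∈ line x R)).card := rfl
      omega)
    (by
      intro y hy
      obtain ⟨hyT, hy1, hy2⟩ := (hYm y).1 hy
      have hdeg := h2 F V Q T H m h j c y hyT
        (X.filter (fun x => QuadraticMap.polar Q y.rep x.rep = 0))
        (fun x hx => ((hXm x).1 (Finset.mem_filter.1 hx).1).1)
        (fun x hx => by
          obtain ⟨hxX, hyx⟩ := Finset.mem_filter.1 hx
          refine ⟨?_, hyx⟩
          rintro rfl
          exact hy2 ((hXm x).1 hxX).2.1)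
      refine hdeg.trans ?_
      rw [hg]
      apply Finset.sum_le_sum_of_subset
      intro Z hZ
      obtain ⟨hZH, x, hx, hZl⟩ := Finset.mem_filter.1 hZ
      obtain ⟨hxX, hyx⟩ := Finset.mem_filter.1 hx
      obtain ⟨hxT, hx1, hx2⟩ := (hXm x).1 hxX
      obtain ⟨a, b, hab⟩ := Pool.Agent.Helper53.PB.mem_line.1 hZl
      have hyy : QuadraticMap.polar Q y.rep y.rep = 0 := by
        rw [polar_self_two, c.sT y hyT, mul_zero]
      have hxx : QuadraticMap.polar Q x.rep x.rep = 0 := by
        rw [polar_self_two, c.sT x hxT, mul_zero]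
      have hyZ : QuadraticMap.polar Q y.rep Z.rep = 0 := by
        rw [← hab, QuadraticMap.polar_add_right, QuadraticMap.polar_smul_right,
          QuadraticMap.polar_smul_right, hyx, hyy]
        simp
      have hxZ : QuadraticMap.polar Q x.rep Z.rep = 0 := by
        rw [← hab, QuadraticMap.polar_add_right, QuadraticMap.polar_smul_right,
          QuadraticMap.polar_smul_right, hxx, QuadraticMap.polar_comm, hyx]
        simp
      refine Finset.mem_erase.2 ⟨?_, Finset.mem_erase.2 ⟨?_, hZH⟩⟩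
      · rintro rfl
        apply hx2
        rw [QuadraticMap.polar_comm]
        exact hxZ
      · rintro rfl
        apply hy2
        rw [QuadraticMap.polar_comm]
        exact hyZ)
  have hq3 : 3 ≤ Nat.card F := by omega
  have hXz : (m R : ℤ) * (Nat.card F : ℤ) ^ 3 ≤ X.card := by exact_mod_cast hXc
  have hYz : (m S : ℤ) * (Nat.card F : ℤ) ^ 3 ≤ Y.card := by exact_mod_cast hYc
  have hfin := arith (Nat.card F) X.card Y.card (m R) (m S) g j (by exact_mod_cast hq3)
    (by exact_mod_cast hmR) (by exact_mod_cast hmS) (by positivity)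
    (by rw [← hsum]; push_cast; ring) (by exact_mod_cast hjq) hXz hYz hvar
  exact_mod_cast hfin

end Pool.Agent.Helper12.PQ
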